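import Pool.Agent.Lib.MP_d2b090_co.LM.Clus

/-!
Proportional representation for every member of a laminar family of sets of panels (for instance
every single panel, every initial segment of the sequence of panels and the whole union), with the
absolute constant `8`, for panels of arbitrary sizes.

One laminar clustering of the population serves all panel sizes: a set that meets the lower quota
of every cluster is `8`-PRF.  The union of the panels is drawn fairly among sets with lower quota,
and any set with lower quota splits into two sets with lower quota of any prescribed sizes.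
-/

open Finset

namespace Pool.Agent.Results.MP_d2b090_co.Laminar

open Classical in
/-- `P` satisfies `β`-PRF for the population `V` (individual `v` is located at `loc v`) and panel
size `k`: for every integer `q ≥ 1` and every `S ⊆ V` with `|S| ≥ q n / k`, at least `q` members of
`P` lie within distance `β * diam S` of some member of `S`. -/
def PRF {V X : Type*} [Fintype V] [MetricSpace X] (loc : V → X) (β : ℝ) (k : ℕ) (P : Finset V) :
    Prop :=
  ∀ q : ℕ, 1 ≤ q → ∀ S : Finset V, (q : ℝ) * (Fintype.card V : ℝ) / (k : ℝ) ≤ (S.card : ℝ) →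
    q ≤ (P.filter (fun u => ∃ v ∈ S,
      dist (loc u) (loc v) ≤ β * Metric.diam (loc '' (S : Set V)))).card

open Pool.Agent.Lib.MP_d2b090_co.LM

theorem prf_of_quota {V X : Type*} [Fintype V] [DecidableEq V] [MetricSpace X] (loc : V → X)
    {L : Finset (Finset V)} (hn : 0 < Fintype.card V)
    (hL : ∀ (S : Finset V) (r : ℝ), S.Nonempty → Small loc r S →
      ∃ C ∈ L, S.card ≤ C.card ∧ ∃ s ∈ S, ∀ u ∈ C, dist (loc u) (loc s) ≤ 8 * r)
    {k : ℕ} (hk : 0 < k) {P : Finset V} (hP : LQ L k P) : PRF loc 8 k P := by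
  intro q hq S hS
  have hk' : (0 : ℝ) < k := by exact_mod_cast hk
  rw [div_le_iff₀ hk'] at hS
  have hS' : q * Fintype.card V ≤ S.card * k := by exact_mod_cast hS
  have hne : S.Nonempty := by
    rw [← card_pos]
    have := Nat.mul_pos hq hn
    by_contra hc
    rw [Nat.eq_zero_of_not_pos hc] at hS'
    omega
  obtain ⟨C, hC, c1, s, hs, c2⟩ := hL S (Metric.diam (loc '' (S : Set V))) hne fun a ha b hb =>
    Metric.dist_le_diam_of_mem ((S.finite_toSet.image loc).isBounded)
      (Set.mem_image_of_mem loc ha) (Set.mem_image_of_mem loc hb)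
  have h1 : q ≤ quo k C :=
    (Nat.le_div_iff_mul_le hn).2 (hS'.trans (Nat.mul_le_mul_right k c1))
  refine h1.trans ((hP.2 C hC).trans (card_le_card fun u hu => ?_))
  classical
  exact mem_filter.2 ⟨(mem_inter.1 hu).1, s, hs, c2 u (mem_inter.1 hu).2⟩

/-- For every laminar family `J` of sets of panels there is an individually fair distribution such
that, on its whole support, each panel, the union of all panels and the union of the panels of
each nonempty member of `J` are `8`-PRF. -/
theorem result {V X : Type*} [Fintype V] [DecidableEq V] [MetricSpace X] (loc : V → X)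
    (l : ℕ) (hl : 1 ≤ l) (k : Fin l → ℕ) (hk : ∀ i, 0 < k i) (hK : ∑ i, k i ≤ Fintype.card V)
    (J : Set (Finset (Fin l))) (hJ : ∀ S ∈ J, ∀ T ∈ J, S ⊆ T ∨ T ⊆ S ∨ Disjoint S T) :
    ∃ A : (Fin l → Finset V) → ℝ, (∀ P, 0 ≤ A P) ∧ ∑ P, A P = 1 ∧
      (∀ v : V, ∑ P ∈ univ.filter (fun P : Fin l → Finset V => v ∈ univ.biUnion P), A P =
        ((∑ i, k i : ℕ) : ℝ) / (Fintype.card V : ℝ)) ∧
      ∀ P, A P ≠ 0 →
        (∀ i, (P i).card = k i) ∧ (∀ i j, i ≠ j → Disjoint (P i) (P j)) ∧
        (∀ i, PRF loc 8 (k i) (P i)) ∧ PRF loc 8 (∑ i, k i) (univ.biUnion P) ∧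
        ∀ T ∈ J, T.Nonempty → PRF loc 8 (∑ i ∈ T, k i) (T.biUnion P) := by
  classical
  have : Nonempty (Fin l) := ⟨⟨0, hl⟩⟩
  have hpos : ∀ T : Finset (Fin l), T.Nonempty → 0 < ∑ i ∈ T, k i :=
    fun T hT => sum_pos (fun i _ => hk i) hT
  have hn : 0 < Fintype.card V := lt_of_lt_of_le (hpos univ univ_nonempty) hK
  have hn' : (0 : ℝ) < Fintype.card V := by exact_mod_cast hn
  obtain ⟨L, hL, h1, hu, hcl⟩ := clusters loc
  obtain ⟨U, hU1, hU2⟩ := decomp hL h1 hu (∑ i, k i) (Fintype.card V) (fun _ => (∑ i, k i : ℕ))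
    (fun _ => ⟨Nat.cast_nonneg _, by exact_mod_cast hK⟩) (by simp)
    (fun C _ => by
      rw [sum_const, nsmul_eq_mul]
      exact_mod_cast Nat.mul_div_le _ _)
  have hJ' : Lam (univ.filter fun T : Finset (Fin l) => (∃ i, T = {i}) ∨ T ∈ J) := by
    intro C hC D hD
    rcases (mem_filter.1 hC).2 with ⟨u, rfl⟩ | hC
    · by_cases h : u ∈ D
      · exact Or.inl (singleton_subset_iff.2 h)
      · exact Or.inr (Or.inr (disjoint_singleton_left.2 h))
    rcases (mem_filter.1 hD).2 with ⟨v, rfl⟩ | hD
    · by_cases h : v ∈ C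
      · exact Or.inr (Or.inl (singleton_subset_iff.2 h))
      · exact Or.inr (Or.inr (disjoint_singleton_right.2 h))
    exact hJ C hC D hD
  have hJ1 : ∀ i : Fin l, {i} ∈ univ.filter fun T : Finset (Fin l) => (∃ i, T = {i}) ∨ T ∈ J :=
    fun i => mem_filter.2 ⟨mem_univ _, Or.inl ⟨i, rfl⟩⟩
  choose pan p1 p2 p3 using fun σ =>
    panels hL h1 hu hn k hJ' hJ1 _ univ (U σ) le_rfl univ_nonempty (hU1 σ)
  have hpush : ∀ (E : (Fin l → Finset V) → Prop) [DecidablePred E],
      ∑ P ∈ univ.filter E, (∑ σ ∈ univ.filter (fun σ => pan σ = P), (1 / Fintype.card V : ℝ)) =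
        ∑ σ, if E (pan σ) then (1 / Fintype.card V : ℝ) else 0 := by
    intro E _
    rw [← sum_filter, ← sum_fiberwise_of_maps_to (s := univ.filter fun σ => E (pan σ))
      (t := univ.filter E) (g := pan) (fun σ hσ => by simpa using hσ)]
    refine sum_congr rfl fun P hP => sum_congr ?_ fun _ _ => rfl
    ext σ
    simp only [mem_filter, mem_univ, true_and] at hP ⊢
    exact ⟨fun h => ⟨h ▸ hP, h⟩, fun h => h.2⟩
  refine ⟨fun P => ∑ σ ∈ univ.filter (fun σ => pan σ = P), (1 / Fintype.card V : ℝ),
    fun P => sum_nonneg (fun σ _ => by positivity), ?_, fun v => ?_, fun P hP => ?_⟩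
  · have := hpush (fun _ => True)
    simp only [filter_true, if_true, sum_const, card_univ, Fintype.card_fin, nsmul_eq_mul] at this
    simp only [sum_const, nsmul_eq_mul]
    rw [this]
    field_simp
  · beta_reduce
    rw [hpush (fun P : Fin l → Finset V => v ∈ univ.biUnion P)]
    have e : ((∑ σ, (if v ∈ U σ then (1 : ℤ) else 0) : ℤ) : ℝ) = ((∑ i, k i : ℕ) : ℝ) := by
      rw [hU2 v]
      simp
    rw [← e]
    push_cast
    rw [sum_div]
    refine sum_congr rfl fun σ _ => ?_
    rw [p1 σ]
    split_ifs <;> simp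
  · obtain ⟨σ, hσ, -⟩ := exists_ne_zero_of_sum_ne_zero hP
    obtain rfl : pan σ = P := (mem_filter.1 hσ).2
    have one : ∀ i, LQ L (k i) (pan σ i) := fun i => by
      simpa using p3 σ {i} (hJ1 i) (subset_univ _) (singleton_nonempty i)
    refine ⟨fun i => (one i).1, fun i j hij => p2 σ i (mem_univ i) j (mem_univ j) hij,
      fun i => prf_of_quota loc hn hcl (hk i) (one i), ?_, fun T hT hne => ?_⟩
    · rw [p1 σ]
      exact prf_of_quota loc hn hcl (hpos univ univ_nonempty) (hU1 σ)
    · exact prf_of_quota loc hn hcl (hpos T hne)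
        (p3 σ T (mem_filter.2 ⟨mem_univ _, Or.inr hT⟩) (subset_univ _) hne)

end Pool.Agent.Results.MP_d2b090_co.Laminar
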