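import Mathlib

/-!
Per-panel and global proportional representation with unequal panel sizes.

We prove the statement of Q1 with the constant `c = 1`.  For every panel size a greedy fractional
capture (always opening the set of least diameter that still carries one unit of weight) splits the
uniform weights into unit groups; every system of distinct representatives of the groups is
`1`-PRF.  The groups of all panels and the groups of the union are then rounded simultaneously by
the Birkhoff-von Neumann theorem.
-/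

open Finset

namespace Pool.Agent.Results.MP_d2b090_co.Main

open Classical in
/-- `P` satisfies `β`-PRF for the population `V` (individual `v` is located at `loc v`) and panel
size `k`: for every integer `q ≥ 1` and every `S ⊆ V` with `|S| ≥ q n / k`, at least `q` members of
`P` lie within distance `β * diam S` of some member of `S`. -/
def PRF {V X : Type*} [Fintype V] [MetricSpace X] (loc : V → X) (β : ℝ) (k : ℕ) (P : Finset V) :
    Prop :=
  ∀ q : ℕ, 1 ≤ q → ∀ S : Finset V, (q : ℝ) * (Fintype.card V : ℝ) / (k : ℝ) ≤ (S.card : ℝ) →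
    q ≤ (P.filter (fun u => ∃ v ∈ S,
      dist (loc u) (loc v) ≤ β * Metric.diam (loc '' (S : Set V)))).card

section Greedy

variable {V X : Type*} [Fintype V] [MetricSpace X] (loc : V → X)

omit [Fintype V] in
lemma dist_le_diam {T : Finset V} {u v : V} (hu : u ∈ T) (hv : v ∈ T) :
    dist (loc u) (loc v) ≤ Metric.diam (loc '' (T : Set V)) :=
  Metric.dist_le_diam_of_mem ((T.finite_toSet.image loc).isBounded)
    (Set.mem_image_of_mem loc hu) (Set.mem_image_of_mem loc hv)

open Classical in
/-- Greedy fractional capture. -/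
lemma greedy (m : ℕ) : ∀ w : V → ℝ, (∀ v, 0 ≤ w v) → ∑ v, w v = m →
    ∃ y : Fin m → V → ℝ, (∀ j v, 0 ≤ y j v) ∧ (∀ j, ∑ v, y j v = 1) ∧ (∀ v, ∑ j, y j v = w v) ∧
      ∀ S : Finset V, ∑ v ∈ S, w v < 1 + ∑ j, (if (∃ s ∈ S, 0 < y j s) ∧
        (∀ u v, 0 < y j u → 0 < y j v →
          dist (loc u) (loc v) ≤ Metric.diam (loc '' (S : Set V))) then (1 : ℝ) else 0) := by
  induction m with
  | zero =>
    intro w hw hs
    have h0 : ∀ v, w v = 0 := by
      intro v
      have := (sum_eq_zero_iff_of_nonneg (fun v _ => hw v)).1 (by simpa using hs) v (mem_univ v)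
      exact this
    refine ⟨fun j => j.elim0, fun j => j.elim0, fun j => j.elim0, fun v => by simp [h0], ?_⟩
    intro S
    simp [h0]
  | succ m ih =>
    intro w hw hs
    have hne : ((univ : Finset (Finset V)).filter (fun T => 1 ≤ ∑ v ∈ T, w v)).Nonempty := by
      refine ⟨univ, ?_⟩
      simp only [mem_filter, mem_univ, true_and, hs]
      push_cast
      linarith [(Nat.cast_nonneg m : (0 : ℝ) ≤ m)]
    obtain ⟨T, hT, hTmin⟩ := exists_min_image _
      (fun T : Finset V => Metric.diam (loc '' (T : Set V))) hne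
    have hT1 : 1 ≤ ∑ v ∈ T, w v := (mem_filter.1 hT).2
    have hTpos : 0 < ∑ v ∈ T, w v := by linarith
    set y0 : V → ℝ := fun v => if v ∈ T then w v / ∑ v ∈ T, w v else 0 with hy0
    have hy0nn : ∀ v, 0 ≤ y0 v := by
      intro v
      simp only [hy0]
      split_ifs
      · exact div_nonneg (hw v) hTpos.le
      · exact le_rfl
    have hy0le : ∀ v, y0 v ≤ w v := by
      intro v
      simp only [hy0]
      split_ifs
      · exact div_le_self (hw v) hT1
      · exact hw v
    have hy0sum : ∑ v, y0 v = 1 := by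
      simp only [hy0]
      rw [sum_ite_mem, univ_inter, ← sum_div, div_self hTpos.ne']
    have hy0supp : ∀ v, 0 < y0 v → v ∈ T := by
      intro v hv
      by_contra h
      simp [hy0, h] at hv
    obtain ⟨y, hy1, hy2, hy3, hy4⟩ := ih (fun v => w v - y0 v) (fun v => sub_nonneg.2 (hy0le v))
      (by rw [sum_sub_distrib, hs, hy0sum]; push_cast; ring)
    refine ⟨Fin.cons y0 y, ?_, ?_, ?_, ?_⟩
    · intro j v
      refine Fin.cases ?_ (fun j => ?_) j
      · simpa using hy0nn v
      · simpa using hy1 j v
    · intro j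
      refine Fin.cases ?_ (fun j => ?_) j
      · simpa using hy0sum
      · simpa using hy2 j
    · intro v
      rw [Fin.sum_univ_succ]
      simp only [Fin.cons_zero, Fin.cons_succ]
      rw [hy3 v]
      ring
    · intro S
      rw [Fin.sum_univ_succ]
      simp only [Fin.cons_zero, Fin.cons_succ]
      have h4 := hy4 S
      rw [sum_sub_distrib] at h4
      have hnn : (0 : ℝ) ≤ ∑ j, (if (∃ s ∈ S, 0 < y j s) ∧
          (∀ u v, 0 < y j u → 0 < y j v →
            dist (loc u) (loc v) ≤ Metric.diam (loc '' (S : Set V))) then (1 : ℝ) else 0) :=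
        sum_nonneg (fun j _ => by split_ifs <;> norm_num)
      by_cases hS : 1 ≤ ∑ v ∈ S, w v
      · have hd : Metric.diam (loc '' (T : Set V)) ≤ Metric.diam (loc '' (S : Set V)) :=
          hTmin S (mem_filter.2 ⟨mem_univ _, hS⟩)
        by_cases hex : ∃ s ∈ S, 0 < y0 s
        · have hg : (∃ s ∈ S, 0 < y0 s) ∧ (∀ u v, 0 < y0 u → 0 < y0 v →
              dist (loc u) (loc v) ≤ Metric.diam (loc '' (S : Set V))) :=
            ⟨hex, fun u v hu hv => (dist_le_diam loc (hy0supp u hu) (hy0supp v hv)).trans hd⟩
          rw [if_pos hg]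
          have : ∑ v ∈ S, y0 v ≤ 1 := by
            rw [← hy0sum]
            exact sum_le_sum_of_subset_of_nonneg (subset_univ S) (fun v _ _ => hy0nn v)
          linarith
        · have hz : ∑ v ∈ S, y0 v = 0 := by
            refine sum_eq_zero (fun v hv => le_antisymm ?_ (hy0nn v))
            by_contra h
            exact hex ⟨v, hv, lt_of_not_ge h⟩
          rw [if_neg (fun h => hex h.1)]
          linarith
      · have : (0 : ℝ) ≤ (if (∃ s ∈ S, 0 < y0 s) ∧ (∀ u v, 0 < y0 u → 0 < y0 v →
              dist (loc u) (loc v) ≤ Metric.diam (loc '' (S : Set V))) then (1 : ℝ) else 0) := by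
          split_ifs <;> norm_num
        push Not at hS
        linarith

/-- Unit groups for panel size `k`, indexed by any type with `k` elements, all of whose systems of
distinct representatives are `1`-PRF. -/
lemma groups (ι : Type*) [Fintype ι] (k : ℕ) (hι : Fintype.card ι = k) (hk : 0 < k)
    (hn : 0 < Fintype.card V) :
    ∃ y : ι → V → ℝ, (∀ j v, 0 ≤ y j v) ∧ (∀ j, ∑ v, y j v = 1) ∧
      (∀ v, ∑ j, y j v = (k : ℝ) / Fintype.card V) ∧
      ∀ (f : ι → V) (P : Finset V), Function.Injective f → (∀ j, 0 < y j (f j)) →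
        (∀ j, f j ∈ P) → PRF loc 1 k P := by
  classical
  have hn' : (0 : ℝ) < Fintype.card V := by exact_mod_cast hn
  have hk' : (0 : ℝ) < k := by exact_mod_cast hk
  obtain ⟨y, hy1, hy2, hy3, hy4⟩ := greedy loc k (fun _ => (k : ℝ) / Fintype.card V)
    (fun _ => by positivity) (by
      rw [sum_const, card_univ, nsmul_eq_mul]
      field_simp)
  let e : ι ≃ Fin k := Fintype.equivFinOfCardEq hι
  refine ⟨fun j => y (e j), fun j v => hy1 _ v, fun j => hy2 _, fun v => ?_, ?_⟩
  · rw [← hy3 v]
    exact Equiv.sum_comp e (fun j => y j v)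
  · intro f P hf hpos hP q _ S hS
    have h4 := hy4 S
    rw [sum_const, nsmul_eq_mul, sum_boole] at h4
    have hq : (q : ℝ) ≤ (S.card : ℝ) * ((k : ℝ) / Fintype.card V) := by
      rw [div_le_iff₀ hk'] at hS
      rw [← mul_div_assoc, le_div_iff₀ hn']
      exact hS
    set G : Finset (Fin k) := univ.filter (fun j => (∃ s ∈ S, 0 < y j s) ∧
        (∀ u v, 0 < y j u → 0 < y j v →
          dist (loc u) (loc v) ≤ Metric.diam (loc '' (S : Set V)))) with hG
    have hqG : q ≤ G.card := by
      have : (q : ℝ) < 1 + (G.card : ℝ) := lt_of_le_of_lt hq h4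
      have : q < 1 + G.card := by exact_mod_cast this
      omega
    refine hqG.trans ?_
    refine card_le_card_of_injOn (fun j => f (e.symm j)) ?_ ?_
    · intro j hj
      have hj' := (mem_filter.1 (mem_coe.1 hj)).2
      obtain ⟨⟨s, hs, hs'⟩, hd⟩ := hj'
      refine mem_coe.2 (mem_filter.2 ⟨hP _, s, hs, ?_⟩)
      rw [one_mul]
      refine hd _ _ ?_ hs'
      simpa using hpos (e.symm j)
    · intro a _ b _ hab
      exact e.symm.injective (hf hab)

end Greedy

/-- Q1 holds with `c = 1`; moreover the panels are pairwise disjoint and every individual lies in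
panel `i` with probability `k i / n`. -/
theorem result {V X : Type*} [Fintype V] [DecidableEq V] [MetricSpace X] (loc : V → X)
    (l : ℕ) (hl : 1 ≤ l) (k : Fin l → ℕ) (hk : ∀ i, 0 < k i) (hK : ∑ i, k i ≤ Fintype.card V) :
    ∃ A : (Fin l → Finset V) → ℝ, (∀ P, 0 ≤ A P) ∧ ∑ P, A P = 1 ∧
      (∀ v : V, ∑ P ∈ univ.filter (fun P : Fin l → Finset V => v ∈ univ.biUnion P), A P =
        ((∑ i, k i : ℕ) : ℝ) / (Fintype.card V : ℝ)) ∧
      (∀ (v : V) (i : Fin l), ∑ P ∈ univ.filter (fun P : Fin l → Finset V => v ∈ P i), A P =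
        (k i : ℝ) / (Fintype.card V : ℝ)) ∧
      ∀ P, A P ≠ 0 →
        (∀ i, (P i).card = k i) ∧ (∀ i j, i ≠ j → Disjoint (P i) (P j)) ∧
        (∀ i, PRF loc 1 (k i) (P i)) ∧ PRF loc 1 (∑ i, k i) (univ.biUnion P) := by
  have hKpos : 0 < ∑ i, k i := by
    have : Nonempty (Fin l) := ⟨⟨0, hl⟩⟩
    exact sum_pos (fun i _ => hk i) univ_nonempty
  have hn : 0 < Fintype.card V := lt_of_lt_of_le hKpos hK
  have hn' : (0 : ℝ) < Fintype.card V := by exact_mod_cast hn
  have hKn : ((∑ i, k i : ℕ) : ℝ) / (Fintype.card V : ℝ) ≤ 1 := by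
    rw [div_le_one hn']
    exact_mod_cast hK
  choose y hy1 hy2 hy3 hy4 using fun i : Fin l =>
    groups loc (Fin (k i)) (k i) (Fintype.card_fin _) (hk i) hn
  obtain ⟨z, hz1, hz2, hz3, hz4⟩ := groups loc (Σ i : Fin l, Fin (k i)) (∑ i, k i)
    (by simp) hKpos hn
  let M : Matrix ((Σ i : Fin l, Fin (k i)) ⊕ V) ((Σ i : Fin l, Fin (k i)) ⊕ V) ℝ :=
    fun r c => match r, c with
      | Sum.inl _, Sum.inl _ => 0
      | Sum.inl a, Sum.inr v => y a.1 a.2 v
      | Sum.inr v, Sum.inl b => z b v
      | Sum.inr v, Sum.inr u =>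
          if v = u then 1 - ((∑ i, k i : ℕ) : ℝ) / (Fintype.card V : ℝ) else 0
  have hcol : ∀ v, ∑ a : (Σ i : Fin l, Fin (k i)), y a.1 a.2 v =
      ((∑ i, k i : ℕ) : ℝ) / (Fintype.card V : ℝ) := by
    intro v
    rw [Fintype.sum_sigma]
    simp only [hy3]
    rw [← sum_div]
    push_cast
    rfl
  have hM : M ∈ doublyStochastic ℝ ((Σ i : Fin l, Fin (k i)) ⊕ V) := by
    rw [mem_doublyStochastic_iff_sum]
    refine ⟨?_, ?_, ?_⟩
    · rintro (a | v) (b | u)
      · exact le_rfl
      · exact hy1 _ _ _
      · exact hz1 _ _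
      · simp only [M]
        split_ifs
        · linarith
        · exact le_rfl
    · rintro (a | v)
      · rw [Fintype.sum_sum_type]
        simp only [M, sum_const_zero, zero_add]
        exact hy2 _ _
      · rw [Fintype.sum_sum_type]
        simp only [M, sum_ite_eq, mem_univ, if_true]
        rw [hz3 v]
        ring
    · rintro (b | u)
      · rw [Fintype.sum_sum_type]
        simp only [M, sum_const_zero, zero_add]
        exact hz2 _
      · rw [Fintype.sum_sum_type]
        simp only [M, sum_ite_eq', mem_univ, if_true]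
        rw [hcol u]
        ring
  obtain ⟨w, hw1, hw2, hw3⟩ := exists_eq_sum_perm_of_mem_doublyStochastic hM
  have hent : ∀ r c, M r c = ∑ σ, if σ r = c then w σ else 0 := by
    intro r c
    rw [← hw3, Matrix.sum_apply]
    refine sum_congr rfl (fun σ _ => ?_)
    simp [Equiv.Perm.permMatrix, PEquiv.toMatrix_apply, Equiv.toPEquiv_apply]
  have hpos : ∀ σ, w σ ≠ 0 → ∀ r, 0 < M r (σ r) := by
    intro σ hσ r
    rw [hent]
    have h1 : (if σ r = σ r then w σ else 0) ≤ ∑ τ, if τ r = σ r then w τ else 0 :=
      single_le_sum (f := fun τ : Equiv.Perm _ => if τ r = σ r then w τ else 0)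
        (fun τ _ => by
          show 0 ≤ if τ r = σ r then w τ else 0
          split_ifs
          · exact hw1 τ
          · exact le_rfl) (mem_univ σ)
    rw [if_pos rfl] at h1
    exact lt_of_lt_of_le (lt_of_le_of_ne (hw1 σ) (Ne.symm hσ)) h1
  let pan : Equiv.Perm ((Σ i : Fin l, Fin (k i)) ⊕ V) → Fin l → Finset V :=
    fun σ i => univ.filter (fun v => ∃ j : Fin (k i), σ (Sum.inl ⟨i, j⟩) = Sum.inr v)
  have hpush : ∀ (E : (Fin l → Finset V) → Prop) [DecidablePred E],
      ∑ P ∈ univ.filter E, (∑ σ ∈ univ.filter (fun σ => pan σ = P), w σ) =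
        ∑ σ, if E (pan σ) then w σ else 0 := by
    intro E _
    simp only [sum_filter]
    have : ∀ P, (if E P then ∑ σ, if pan σ = P then w σ else 0 else 0) =
        ∑ σ, if pan σ = P then (if E (pan σ) then w σ else 0) else 0 := by
      intro P
      split_ifs with h
      · refine sum_congr rfl (fun σ _ => ?_)
        split_ifs with h1 h2
        · rfl
        · exact absurd (h1 ▸ h) h2
        · rfl
      · refine (sum_eq_zero (fun σ _ => ?_)).symm
        split_ifs with h1 h2
        · exact absurd (h1 ▸ h2) h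
        · rfl
        · rfl
    simp only [this]
    rw [sum_comm]
    simp
  refine ⟨fun P => ∑ σ ∈ univ.filter (fun σ => pan σ = P), w σ,
    fun P => sum_nonneg (fun σ _ => hw1 σ), ?_, ?_, ?_, ?_⟩
  · have := hpush (fun _ => True)
    simpa [hw2] using this
  · intro v
    beta_reduce
    rw [hpush (fun P : Fin l → Finset V => v ∈ univ.biUnion P), ← hcol v]
    have : ∀ a : (Σ i : Fin l, Fin (k i)), y a.1 a.2 v =
        ∑ σ, if σ (Sum.inl a) = Sum.inr v then w σ else 0 := fun a => hent (Sum.inl a) (Sum.inr v)
    simp only [this]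
    rw [sum_comm]
    refine sum_congr rfl (fun σ _ => ?_)
    split_ifs with h
    · simp only [mem_biUnion, mem_univ, true_and, pan, mem_filter] at h
      obtain ⟨i, j, hij⟩ := h
      rw [sum_eq_single ⟨i, j⟩]
      · rw [if_pos hij]
      · intro b _ hb
        rw [if_neg]
        intro h'
        exact hb (Sum.inl_injective (σ.injective (h'.trans hij.symm)))
      · intro h'
        exact absurd (mem_univ _) h'
    · refine (sum_eq_zero (fun a _ => if_neg (fun h' => h ?_))).symm
      simp only [mem_biUnion, mem_univ, true_and, pan, mem_filter]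
      exact ⟨a.1, a.2, h'⟩
  · intro v i
    beta_reduce
    rw [hpush (fun P : Fin l → Finset V => v ∈ P i), ← hy3 i v]
    have : ∀ j : Fin (k i), y i j v =
        ∑ σ, if σ (Sum.inl ⟨i, j⟩) = Sum.inr v then w σ else 0 :=
      fun j => hent (Sum.inl ⟨i, j⟩) (Sum.inr v)
    simp only [this]
    rw [sum_comm]
    refine sum_congr rfl (fun σ _ => ?_)
    split_ifs with h
    · simp only [mem_univ, true_and, pan, mem_filter] at h
      obtain ⟨j, hij⟩ := h
      rw [sum_eq_single j]
      · rw [if_pos hij]
      · intro b _ hb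
        rw [if_neg]
        intro h'
        have := Sum.inl_injective (σ.injective (h'.trans hij.symm))
        exact hb (by simpa using this)
      · intro h'
        exact absurd (mem_univ _) h'
    · refine (sum_eq_zero (fun a _ => if_neg (fun h' => h ?_))).symm
      simp only [mem_univ, true_and, pan, mem_filter]
      exact ⟨a, h'⟩
  · intro P hP
    obtain ⟨σ, hσ, hwσ⟩ := exists_ne_zero_of_sum_ne_zero hP
    have hσP : pan σ = P := (mem_filter.1 hσ).2
    subst hσP
    have hp := hpos σ hwσ
    have hf : ∀ a : (Σ i : Fin l, Fin (k i)), ∃ v, σ (Sum.inl a) = Sum.inr v ∧ 0 < y a.1 a.2 v := by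
      intro a
      have := hp (Sum.inl a)
      rcases h : σ (Sum.inl a) with b | v
      · rw [h] at this
        exact absurd this (lt_irrefl _)
      · rw [h] at this
        exact ⟨v, rfl, this⟩
    choose f hf1 hf2 using hf
    have hfinj : Function.Injective f := by
      intro a b hab
      exact Sum.inl_injective (σ.injective (by rw [hf1, hf1, hab]))
    have hfinj' : ∀ i, Function.Injective (fun j : Fin (k i) => f ⟨i, j⟩) := by
      intro i a b hab
      simpa using hfinj hab
    have hpan : ∀ i, pan σ i = univ.image (fun j : Fin (k i) => f ⟨i, j⟩) := by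
      intro i
      ext v
      simp only [pan, mem_filter, mem_univ, true_and, mem_image, hf1, Sum.inr.injEq]
    have hg : ∀ b : (Σ i : Fin l, Fin (k i)), ∃ v, σ (Sum.inr v) = Sum.inl b ∧ 0 < z b v := by
      intro b
      have := hp (σ.symm (Sum.inl b))
      rw [Equiv.apply_symm_apply] at this
      rcases h : σ.symm (Sum.inl b) with a | v
      · rw [h] at this
        exact absurd this (lt_irrefl _)
      · rw [h] at this
        exact ⟨v, by rw [← h, Equiv.apply_symm_apply], this⟩
    choose g hg1 hg2 using hg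
    have hginj : Function.Injective g := by
      intro a b hab
      exact Sum.inl_injective (by rw [← hg1, ← hg1, hab])
    refine ⟨fun i => ?_, fun i j hij => ?_, fun i => ?_, ?_⟩
    · rw [hpan, card_image_of_injective _ (hfinj' i), card_univ, Fintype.card_fin]
    · rw [hpan, hpan, disjoint_left]
      intro v hv hv'
      simp only [mem_image, mem_univ, true_and] at hv hv'
      obtain ⟨a, ha⟩ := hv
      obtain ⟨b, hb⟩ := hv'
      exact hij (congrArg Sigma.fst (hfinj (ha.trans hb.symm)))
    · refine hy4 i (fun j => f ⟨i, j⟩) _ (hfinj' i) (fun j => hf2 ⟨i, j⟩) (fun j => ?_)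
      rw [hpan]
      exact mem_image_of_mem _ (mem_univ j)
    · refine hz4 g _ hginj hg2 (fun b => ?_)
      have := hp (σ.symm (Sum.inr (g b)))
      rw [Equiv.apply_symm_apply] at this
      rcases h : σ.symm (Sum.inr (g b)) with a | u
      · simp only [mem_biUnion, mem_univ, true_and, pan, mem_filter]
        refine ⟨a.1, a.2, ?_⟩
        show σ (Sum.inl a) = _
        rw [← h, Equiv.apply_symm_apply]
      · exfalso
        rw [h] at this
        have hu : u = g b := by
          by_contra hne
          simp only [M, if_neg hne] at this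
          exact lt_irrefl _ this
        have h2 : σ (Sum.inr u) = Sum.inr (g b) := by rw [← h, Equiv.apply_symm_apply]
        rw [hu, hg1] at h2
        exact Sum.inl_ne_inr h2

end Pool.Agent.Results.MP_d2b090_co.Main
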