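import Mathlib

/-!
With three or more panels, fairness in every single panel cannot be combined with proportional
representation of every initial segment of the sequence of panels, whatever the constant.
-/

open Finset

namespace Pool.Agent.Results.MP_d2b090_co.ThreePanels

open Classical in
/-- `P` satisfies `β`-PRF for the population `V` (individual `v` is located at `loc v`) and panel
size `k`: for every integer `q ≥ 1` and every `S ⊆ V` with `|S| ≥ q n / k`, at least `q` members of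
`P` lie within distance `β * diam S` of some member of `S`. -/
def PRF {V X : Type*} [Fintype V] [MetricSpace X] (loc : V → X) (β : ℝ) (k : ℕ) (P : Finset V) :
    Prop :=
  ∀ q : ℕ, 1 ≤ q → ∀ S : Finset V, (q : ℝ) * (Fintype.card V : ℝ) / (k : ℝ) ≤ (S.card : ℝ) →
    q ≤ (P.filter (fun u => ∃ v ∈ S,
      dist (loc u) (loc v) ≤ β * Metric.diam (loc '' (S : Set V)))).card

theorem card_lt {n m : ℕ} (h : m ≤ n) : (univ.filter fun v : Fin n => v.val < m).card = m := by
  rw [Fin.card_filter_val_lt, min_eq_right h]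

theorem quota {n : ℕ} (β : ℝ) {k q m : ℕ} (hq : 1 ≤ q) (hm : m ≤ n) (hk : 0 < k)
    (h : q * n ≤ m * k) {P : Finset (Fin n)}
    (hP : PRF (fun v : Fin n => (|β| + 2) ^ v.val) β k P) :
    q ≤ (P ∩ univ.filter fun v : Fin n => v.val < m).card := by
  classical
  have hk' : (0 : ℝ) < k := by exact_mod_cast hk
  have h1 : (1 : ℝ) ≤ |β| + 2 := by linarith [abs_nonneg β]
  refine (hP q hq (univ.filter fun v : Fin n => v.val < m) ?_).trans (card_le_card fun u hu => ?_)
  · rw [card_lt hm, Fintype.card_fin, div_le_iff₀ hk']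
    exact_mod_cast h
  simp only [mem_filter] at hu
  obtain ⟨hu1, v, hv, hd⟩ := hu
  refine mem_inter.2 ⟨hu1, mem_filter.2 ⟨mem_univ _, ?_⟩⟩
  by_contra hc
  have hv' := hv.2
  obtain ⟨m, rfl⟩ : ∃ m', m = m' + 1 := ⟨m - 1, by omega⟩
  have up : ∀ w : Fin n, w.val < m + 1 → (|β| + 2) ^ w.val ≤ (|β| + 2) ^ m :=
    fun w hw => pow_le_pow_right₀ h1 (by omega)
  have hpos : ∀ j : ℕ, 0 < (|β| + 2) ^ j := fun j => by positivity
  have hdiam : Metric.diam ((fun v : Fin n => (|β| + 2) ^ v.val) ''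
      ((univ.filter fun v : Fin n => v.val < m + 1 : Finset (Fin n)) : Set (Fin n))) ≤
      (|β| + 2) ^ m := by
    refine Metric.diam_le_of_forall_dist_le (hpos m).le ?_
    rintro _ ⟨a, ha, rfl⟩ _ ⟨b, hb, rfl⟩
    have e1 := up a (mem_filter.1 (mem_coe.1 ha)).2
    have e2 := up b (mem_filter.1 (mem_coe.1 hb)).2
    rw [Real.dist_eq, abs_le]
    constructor <;> linarith [hpos a.val, hpos b.val]
  have e1 := up v hv'
  have e2 : (|β| + 2) ^ (m + 1) ≤ (|β| + 2) ^ u.val := pow_le_pow_right₀ h1 (by omega)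
  have e3 := (le_abs_self _).trans (Real.dist_eq _ _ ▸ hd)
  have e4 := mul_le_mul (le_abs_self β) hdiam Metric.diam_nonneg (abs_nonneg β)
  rw [pow_succ] at e2
  nlinarith [hpos m]

theorem mean {V ι : Type*} [Fintype V] [DecidableEq V] [Fintype ι] [DecidableEq ι]
    (A : (ι → Finset V) → ℝ) (i : ι) (p : ℝ)
    (h : ∀ v, ∑ P ∈ univ.filter (fun P : ι → Finset V => v ∈ P i), A P = p) (G : Finset V) :
    ∑ P, A P * ((P i ∩ G).card : ℝ) = G.card * p := by
  have e : ∀ P : ι → Finset V, A P * ((P i ∩ G).card : ℝ) =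
      ∑ v ∈ G, if v ∈ P i then A P else 0 := fun P => by
    rw [sum_ite_mem, sum_const, nsmul_eq_mul, inter_comm, mul_comm]
  simp only [e]
  rw [sum_comm]
  simp only [← sum_filter, h]
  rw [sum_const, nsmul_eq_mul]

/-- For every `l ≥ 3` and every constant `β` there is an instance on the real line with `l` panels
for which no distribution with `Pr[v ∈ P i] = k i / n` has all initial segments `β`-PRF. -/
theorem result (l : ℕ) (hl : 3 ≤ l) (β : ℝ) :
    ∃ (n : ℕ) (loc : Fin n → ℝ) (k : Fin l → ℕ), Function.Injective loc ∧ (∀ i, 0 < k i) ∧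
      ∑ i, k i ≤ n ∧
      ¬ ∃ A : (Fin l → Finset (Fin n)) → ℝ, (∀ P, 0 ≤ A P) ∧ ∑ P, A P = 1 ∧
        (∀ (v : Fin n) (i : Fin l),
          ∑ P ∈ univ.filter (fun P : Fin l → Finset (Fin n) => v ∈ P i), A P = (k i : ℝ) / n) ∧
        ∀ P, A P ≠ 0 → (∀ i, (P i).card = k i) ∧
          ∀ t : Fin l, PRF loc β (∑ i ∈ Iic t, k i) ((Iic t).biUnion P) := by
  refine ⟨12 * l, fun v => (|β| + 2) ^ v.val, fun i => if i.val = 0 then 2 else 1, ?_,
    fun i => by dsimp only; split_ifs <;> norm_num, ?_, ?_⟩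
  · intro a b hab
    exact Fin.ext (pow_right_injective₀ (by positivity) (by linarith [abs_nonneg β]) hab)
  · calc ∑ i : Fin l, (if i.val = 0 then 2 else 1) ≤ ∑ _i : Fin l, 2 :=
          sum_le_sum fun i _ => by split_ifs <;> norm_num
      _ ≤ 12 * l := by
          rw [sum_const, card_univ, Fintype.card_fin, smul_eq_mul]
          omega
  rintro ⟨A, hA0, hA1, hfair, hsupp⟩
  let i0 : Fin l := ⟨0, by omega⟩
  let i1 : Fin l := ⟨1, by omega⟩
  let i2 : Fin l := ⟨2, by omega⟩
  have I0 : Iic i0 = {i0} := by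
    ext i
    simp only [mem_Iic, mem_singleton, Fin.le_def, Fin.ext_iff, i0]
    omega
  have I1 : Iic i1 = {i0, i1} := by
    ext i
    simp only [mem_Iic, mem_insert, mem_singleton, Fin.le_def, Fin.ext_iff, i0, i1]
    omega
  have I2 : Iic i2 = {i0, i1, i2} := by
    ext i
    simp only [mem_Iic, mem_insert, mem_singleton, Fin.le_def, Fin.ext_iff, i0, i1, i2]
    omega
  let G : ℕ → Finset (Fin (12 * l)) := fun m => univ.filter fun v => v.val < m * l
  have hG : ∀ m, m ≤ 12 → (G m).card = m * l := fun m hm => card_lt (Nat.mul_le_mul_right l hm)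
  have mono : ∀ (Q : Finset (Fin (12 * l))) {a b : ℕ}, a ≤ b → (Q ∩ G a).card ≤ (Q ∩ G b).card :=
    fun Q a b hab => card_le_card (inter_subset_inter_left fun v hv => mem_filter.2
      ⟨mem_univ _, (mem_filter.1 hv).2.trans_le (Nat.mul_le_mul_right l hab)⟩)
  have un : ∀ Q R H : Finset (Fin (12 * l)), ((Q ∪ R) ∩ H).card ≤ (Q ∩ H).card + (R ∩ H).card :=
    fun Q R H => by
      rw [union_inter_distrib_right]
      exact card_union_le _ _
  have point : ∀ P, A P ≠ 0 → 4 + (P i1 ∩ G 9).card ≤ (P i0 ∩ G 6).card + (P i0 ∩ G 9).card +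
      (P i1 ∩ G 9).card + (P i2 ∩ G 9).card + (P i1 ∩ G 8).card := by
    intro P hP
    obtain ⟨hc, hp⟩ := hsupp P hP
    have p0 := hp i0
    have p1 := hp i1
    have p2 := hp i2
    rw [I0, sum_singleton, singleton_biUnion] at p0
    rw [I1, sum_pair (by simp [i0, i1]), biUnion_insert, singleton_biUnion] at p1
    rw [I2, sum_insert (by simp [i0, i1, i2]), sum_pair (by simp [i1, i2]), biUnion_insert,
      biUnion_insert, singleton_biUnion] at p2
    have a1 : 1 ≤ (P i0 ∩ G 6).card :=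
      quota β le_rfl (by omega) (by simp [i0]) (by simp [i0]; omega) p0
    have a2 : 2 ≤ ((P i0 ∪ P i1) ∩ G 8).card :=
      quota β (by omega) (by omega) (by simp [i0, i1]) (by simp [i0, i1]; omega) p1
    have a3 : 2 ≤ ((P i0 ∪ (P i1 ∪ P i2)) ∩ G 6).card :=
      quota β (by omega) (by omega) (by simp [i0, i1, i2]) (by simp [i0, i1, i2]; omega) p2
    have a4 : 3 ≤ ((P i0 ∪ (P i1 ∪ P i2)) ∩ G 9).card :=
      quota β (by omega) (by omega) (by simp [i0, i1, i2]) (by simp [i0, i1, i2]; omega) p2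
    have b1 := un (P i0) (P i1) (G 8)
    have b2 := un (P i0) (P i1 ∪ P i2) (G 6)
    have b3 := un (P i1) (P i2) (G 6)
    have b4 := un (P i0) (P i1 ∪ P i2) (G 9)
    have b5 := un (P i1) (P i2) (G 9)
    have c1 := mono (P i0) (by norm_num : 8 ≤ 9)
    have c2 := mono (P i1) (by norm_num : 6 ≤ 8)
    have c3 := mono (P i2) (by norm_num : 6 ≤ 9)
    have c4 : (P i1 ∩ G 9).card ≤ 1 := by
      simpa [hc i1, i1] using card_le_card (inter_subset_left (s₁ := P i1) (s₂ := G 9))
    have c5 := mono (P i1) (by norm_num : 8 ≤ 9)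
    omega
  have hsum : ∑ P, (4 * A P + A P * ((P i1 ∩ G 9).card : ℝ)) ≤
      ∑ P, (A P * ((P i0 ∩ G 6).card : ℝ) + A P * ((P i0 ∩ G 9).card : ℝ) +
        A P * ((P i1 ∩ G 9).card : ℝ) + A P * ((P i2 ∩ G 9).card : ℝ) +
        A P * ((P i1 ∩ G 8).card : ℝ)) := by
    refine sum_le_sum fun P _ => ?_
    by_cases hP : A P = 0
    · simp [hP]
    · have h1 : (4 : ℝ) + (P i1 ∩ G 9).card ≤ (P i0 ∩ G 6).card + (P i0 ∩ G 9).card +
          (P i1 ∩ G 9).card + (P i2 ∩ G 9).card + (P i1 ∩ G 8).card := by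
        exact_mod_cast point P hP
      nlinarith [mul_le_mul_of_nonneg_left h1 (hA0 P)]
  simp only [sum_add_distrib, ← mul_sum, hA1, mean A _ _ (fun v => hfair v _)] at hsum
  rw [hG 6 (by norm_num), hG 8 (by norm_num), hG 9 (by norm_num)] at hsum
  have hl' : (0 : ℝ) < l := by exact_mod_cast (by omega : 0 < l)
  simp only [i0, i1, i2] at hsum
  norm_num at hsum
  field_simp at hsum
  linarith

end Pool.Agent.Results.MP_d2b090_co.ThreePanels
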